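import Pool.Agent.Helper91.SY.Main
import Pool.Agent.Helper91.SY.Defs

/-!
# Symplectic forms standard at infinity: one commuting pair suffices
-/

set_option autoImplicit false

namespace Pool.Agent.Results.MP_126465_gt.BracketPair

open Pool.Agent.Helper91.SYD

/-- A symplectic form on `ℝ^(2n)`, `n ≥ 2`, which is standard at infinity is the pullback of the standard
form by a compactly supported diffeomorphism if and only if two independent translations can be modified
in a compact set to commuting symplectic maps, if and only if two independent linear functions can be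
modified in a compact set so that their Poisson bracket is constant (or: does not change sign). -/
theorem result (n : ℕ) (hn : 2 ≤ n) (η : V n → V n [⋀^Fin 2]→L[ℝ] ℝ)
    (hη : StandardAtInfinity w0 η) :
    [StandardRel w0 η, AllTranslations η, SomeTranslations η, AllBrackets η, SomeBracket η,
      NonnegativeBracket w0 η].TFAE := by
  have h := Pool.Agent.Helper91.SY.headA n hn η ⟨hη.1.1, hη.1.2, hη.1.3, hη.2⟩
  have e4 : ∀ l m : V n →L[ℝ] ℝ,
      Pool.Agent.Helper91.SY.ConstBr η l m ↔ ∃ c : ℝ, BracketIn η l m {c} := by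
    intro l m
    constructor
    · rintro ⟨f, g, h1, h2, h3, h4, c, h5⟩
      exact ⟨c, f, g, h1, h2, h3, h4, h5⟩
    · rintro ⟨c, f, g, h1, h2, h3, h4, h5⟩
      exact ⟨f, g, h1, h2, h3, h4, c, h5⟩
  have e4' : (∀ l m : V n →L[ℝ] ℝ, LinearIndependent ℝ ![l, m] →
      Pool.Agent.Helper91.SY.ConstBr η l m) ↔
      ∀ l m : V n →L[ℝ] ℝ, IndepF l m → ∃ c : ℝ, BracketIn η l m {c} :=
    forall_congr' fun l => forall_congr' fun m => imp_congr_right fun _ => e4 l m
  have e5' : (∃ l m : V n →L[ℝ] ℝ, LinearIndependent ℝ ![l, m] ∧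
      Pool.Agent.Helper91.SY.ConstBr η l m) ↔
      ∃ l m : V n →L[ℝ] ℝ, IndepF l m ∧ ∃ c : ℝ, BracketIn η l m {c} :=
    exists_congr fun l => exists_congr fun m => and_congr_right fun _ => e4 l m
  rw [e4', e5'] at h
  exact h

end Pool.Agent.Results.MP_126465_gt.BracketPair
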