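import Pool.Agent.Helper37.CA.Turn
import Pool.Agent.Helper91.SY.Main
import Pool.Agent.Helper91.SY.Defs

/-!
MP_126465_gt: a symplectic form on `ℝ^(2n)`, `n ≥ 2`, which is standard at infinity and invariant under a
nontrivial circle action with nonnegative moment map at infinity is symplectomorphic to the standard form; if it
is invariant under the rotations of one complex coordinate, even by a diffeomorphism of compact support.
-/

set_option autoImplicit false

namespace Pool.Agent.Results.MP_126465_gt.CircleActions

open scoped ContDiff
open Pool.Agent.Helper91.SYD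

section general

variable {E : Type} [NormedAddCommGroup E] [NormedSpace ℝ E]

/-- The generating vector of the flow `F` at the point `x`. -/
noncomputable def velocity (F : ℝ → E → E) (x : E) : E := deriv (fun t => F t x) 0

/-- `T` is a nontrivial smooth action of the circle `ℝ / 2πℤ` on `E` which preserves the form `η`. -/
structure CircleAction (η : E → E [⋀^Fin 2]→L[ℝ] ℝ) (T : ℝ → E → E) : Prop where
  smooth : ContDiff ℝ ∞ (fun z : ℝ × E => T z.1 z.2)
  zero : ∀ x, T 0 x = x
  add : ∀ s t x, T (s + t) x = T s (T t x)
  period : ∀ x, T (2 * Real.pi) x = x
  nontrivial : ∃ t x, T t x ≠ x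
  preserves : ∀ t x u v, ev (η (T t x)) (dmap (T t) x u) (dmap (T t) x v) = ev (η x) u v

/-- Outside a compact set the action `T` preserves the `1`-form `σ(x, ·)` (twice the standard Liouville form; in
other words it commutes with the dilations), and the moment map `σ(x, X(x)) / 2`, where `X` is the generating
field of `T`, is nonnegative. -/
def NonnegativeAtInfinity (σ : E → E → ℝ) (T : ℝ → E → E) : Prop :=
  ∃ C : Set E, IsCompact C ∧ ∀ x, x ∉ C →
    (∀ t v, σ (T t x) (dmap (T t) x v) = σ x v) ∧ 0 ≤ σ x (velocity T x)

end general

/-- The linear circle action with the weights `a`: the rotation by the angle `a_i θ` in the coordinates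
`(x_i, y_i)`, for all `i`. -/
noncomputable def turn {n : ℕ} (a : Fin n → ℕ) (θ : ℝ) (z : V n) : V n :=
  (fun i => Real.cos (a i * θ) * z.1 i - Real.sin (a i * θ) * z.2 i,
    fun i => Real.sin (a i * θ) * z.1 i + Real.cos (a i * θ) * z.2 i)

/-- Outside a compact set `T` is a linear circle action with nonnegative weights. -/
def LinearAtInfinity {n : ℕ} (T : ℝ → V n → V n) : Prop :=
  ∃ (a : Fin n → ℕ) (C : Set (V n)), IsCompact C ∧ ∀ x, x ∉ C → ∀ t, T t x = turn a t x

section bridge

/-- `rot i θ` is a linear map -/
theorem rot_dmap {n : ℕ} (i : Fin n) (θ : ℝ) (x u : V n) : dmap (rot i θ) x u = rot i θ u := by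
  set L : V n →L[ℝ] V n := LinearMap.toContinuousLinearMap
    { toFun := rot i θ
      map_add' := fun a b => by
        refine Prod.ext (funext fun j => ?_) (funext fun j => ?_)
        · by_cases hj : j = i
          · subst hj
            simp only [rot, Prod.fst_add, Prod.snd_add, Pi.add_apply, Function.update_self]
            ring
          · simp only [rot, Prod.fst_add, Pi.add_apply, Function.update_of_ne hj]
        · by_cases hj : j = i
          · subst hj
            simp only [rot, Prod.fst_add, Prod.snd_add, Pi.add_apply, Function.update_self]
            ring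
          · simp only [rot, Prod.snd_add, Pi.add_apply, Function.update_of_ne hj]
      map_smul' := fun c a => by
        refine Prod.ext (funext fun j => ?_) (funext fun j => ?_)
        · by_cases hj : j = i
          · subst hj
            simp only [rot, Prod.smul_fst, Prod.smul_snd, Pi.smul_apply, Function.update_self,
              smul_eq_mul, RingHom.id_apply]
            ring
          · simp only [rot, Prod.smul_fst, Pi.smul_apply, Function.update_of_ne hj,
              RingHom.id_apply]
        · by_cases hj : j = i
          · subst hj
            simp only [rot, Prod.smul_fst, Prod.smul_snd, Pi.smul_apply, Function.update_self,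
              smul_eq_mul, RingHom.id_apply]
            ring
          · simp only [rot, Prod.smul_snd, Pi.smul_apply, Function.update_of_ne hj,
              RingHom.id_apply] } with hL
  have h1 : fderiv ℝ (fun y => L y) x = L := L.fderiv
  exact congrArg (fun M : V n →L[ℝ] V n => M u) h1

end bridge

/-- Let `n ≥ 2` and let `η` be a symplectic form on `ℝ^(2n)` which is equal to the standard form `w0` outside a
compact set, and let `T` be a nontrivial circle action which preserves `η`.  If `T` has, outside a compact set,
the properties in `NonnegativeAtInfinity`, in particular if `T` is, outside a compact set, a linear action with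
nonnegative weights, then `(ℝ^(2n), η)` is symplectomorphic to `(ℝ^(2n), w0)`.  If the group of all rotations in
the coordinates `(x_i, y_i)`, for one `i`, preserves `η`, then `η` is even the pullback of `w0` under a
diffeomorphism which is the identity outside a compact set. -/
theorem result (n : ℕ) (hn : 2 ≤ n) (η : V n → V n [⋀^Fin 2]→L[ℝ] ℝ)
    (hη : StandardAtInfinity w0 η) (T : ℝ → V n → V n) (hT : CircleAction η T) :
    (NonnegativeAtInfinity w0 T ∨ LinearAtInfinity T → Standard w0 η) ∧
      ∀ i : Fin n, T = rot i → StandardRel w0 η := by
  have hη' : Pool.Agent.Helper91.SY.StdAtInf η := ⟨hη.1.1, hη.1.2, hη.1.3, hη.2⟩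
  refine ⟨?_, ?_⟩
  · rintro (hinf | ⟨a, hfar⟩)
    · exact Pool.Agent.Helper37.CA.thmB hn hη'
        ⟨hT.smooth, hT.zero, hT.add, hT.period, hT.preserves, hinf⟩ hT.nontrivial
    · exact Pool.Agent.Helper37.CA.thmB hn hη' (Pool.Agent.Helper37.CA.turn_act hT.smooth
        hT.zero hT.add hT.period hT.preserves hfar) hT.nontrivial
  · rintro i rfl
    refine Pool.Agent.Helper91.SY.headC n hn i η hη' fun θ x u v => ?_
    have h := hT.preserves θ x u v
    rw [rot_dmap, rot_dmap] at h
    exact h

end Pool.Agent.Results.MP_126465_gt.CircleActions
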