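import Pool.Agent.Helper97.SZ.Asm
import Pool.Agent.Helper37.CA.Crit

/-!
MP_126465_gt: a symplectic form on `ℝ^(2n)`, standard outside a cube `Q`, is symplectomorphic to the standard form
iff there is a symplectic map of a neighbourhood of `Q` to the standard space which is injective on the boundary
of `Q`, iff `Q` can be displaced from itself by a symplectic map, iff the form is invertible for the connected
sum, iff there is a conformally symplectic diffeomorphism which attracts `Q` to a compact set of small dimension,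
or to a compact set which can be displaced, iff some Liouville flow has a compact core which is moved by a
Hamiltonian field to first order, or lies to first order in a symplectic submanifold of positive codimension, or
iff some Liouville flow with a compact core commutes with a circle action whose moment map is nonnegative at
infinity.
-/

set_option autoImplicit false

namespace Pool.Agent.Results.MP_126465_gt.EmbeddingCriterion

open Set Metric Topology Filter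
open scoped ContDiff

section general

variable {E : Type} [NormedAddCommGroup E] [NormedSpace ℝ E]

/-- The value `η_x(u, v)` of the `2`-form `η` on `E`. -/
def val (η : E → E [⋀^Fin 2]→L[ℝ] ℝ) (x u v : E) : ℝ := η x ![u, v]

/-- `ψ^* β = α` on `U`. -/
def PullsBack (U : Set E) (ψ : E → E) (β α : E → E → E → ℝ) : Prop :=
  ∀ x ∈ U, ∀ u v, β (ψ x) (fderiv ℝ ψ x u) (fderiv ℝ ψ x v) = α x u v

/-- `η` is a symplectic form on `E`, equal to the constant form `w` outside a compact set. -/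
structure StdAtInf (w : E → E → ℝ) (η : E → E [⋀^Fin 2]→L[ℝ] ℝ) : Prop where
  smooth : ContDiff ℝ ∞ η
  closed : ∀ x a b c : E,
    fderiv ℝ η x a ![b, c] - fderiv ℝ η x b ![a, c] + fderiv ℝ η x c ![a, b] = 0
  nondeg : ∀ x a : E, a ≠ 0 → ∃ b, val η x a b ≠ 0
  std : ∃ K : Set E, IsCompact K ∧ ∀ x, x ∉ K → ∀ a b : E, val η x a b = w a b

/-- `η = w` outside the closed ball (for the maximum norm: the closed cube) of radius `R`. -/
def Outside (w : E → E → ℝ) (η : E → E [⋀^Fin 2]→L[ℝ] ℝ) (R : ℝ) : Prop :=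
  ∀ x, R < ‖x‖ → ∀ a b : E, val η x a b = w a b

/-- `φ` is a diffeomorphism of `E`. -/
def Diffeo (φ : E ≃ E) : Prop := ContDiff ℝ ∞ (fun x => φ x) ∧ ContDiff ℝ ∞ (fun x => φ.symm x)

/-- (1) `(E, η)` is symplectomorphic to `(E, w)`. -/
def Standard (w : E → E → ℝ) (η : E → E [⋀^Fin 2]→L[ℝ] ℝ) : Prop :=
  ∃ φ : E ≃ E, Diffeo φ ∧ PullsBack univ (fun x => φ x) (fun _ => w) (val η)

/-- (2) `(E, η)` embeds symplectically into `(E, w)`. -/
def Embeds (w : E → E → ℝ) (η : E → E [⋀^Fin 2]→L[ℝ] ℝ) : Prop :=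
  ∃ ψ : E → E, ContDiff ℝ ∞ ψ ∧ Function.Injective ψ ∧ PullsBack univ ψ (fun _ => w) (val η)

/-- (3) A smooth map `ψ` of a neighbourhood `U` of the closed ball of radius `R` satisfies `ψ^* w = η` and is
injective on the boundary of the ball. -/
def BoundaryEmbeds (w : E → E → ℝ) (η : E → E [⋀^Fin 2]→L[ℝ] ℝ) (R : ℝ) : Prop :=
  ∃ (U : Set E) (ψ : E → E), IsOpen U ∧ closedBall 0 R ⊆ U ∧ ContDiffOn ℝ ∞ ψ U ∧
    InjOn ψ (sphere 0 R) ∧ PullsBack U ψ (fun _ => w) (val η)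

/-- The closed ball of radius `r` is mapped off itself by the time one map of the flow `Φ` of the Hamiltonian
vector field, with respect to `η`, of a function `f` of compact support. -/
def HamDisplaceable (η : E → E [⋀^Fin 2]→L[ℝ] ℝ) (r : ℝ) : Prop :=
  ∃ (f : E → ℝ) (Φ : ℝ → E → E), ContDiff ℝ ∞ f ∧ HasCompactSupport f ∧ (∀ x, Φ 0 x = x) ∧
    (∀ t x, DifferentiableAt ℝ (fun s => Φ s x) t) ∧
    (∀ t x v, val η (Φ t x) (deriv (fun s => Φ s x) t) v = fderiv ℝ f (Φ t x) v) ∧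
    ∀ x, ‖x‖ ≤ r → r < ‖Φ 1 x‖

/-- (5) The closed ball of radius `R` is mapped off itself by a diffeomorphism `g` with `g^* η = η`. -/
def Displaceable (η : E → E [⋀^Fin 2]→L[ℝ] ℝ) (R : ℝ) : Prop :=
  ∃ g : E ≃ E, Diffeo g ∧ PullsBack univ (fun x => g x) (val η) (val η) ∧ ∀ x, ‖x‖ ≤ R → R < ‖g x‖

/-- (6) The closed ball of radius `R` is mapped off itself by a smooth map `ψ` of a neighbourhood `U` of the ball
with `ψ^* η = η` which is injective on the boundary of the ball. -/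
def LocallyDisplaceable (η : E → E [⋀^Fin 2]→L[ℝ] ℝ) (R : ℝ) : Prop :=
  ∃ (U : Set E) (ψ : E → E), IsOpen U ∧ closedBall 0 R ⊆ U ∧ ContDiffOn ℝ ∞ ψ U ∧
    InjOn ψ (sphere 0 R) ∧ PullsBack U ψ (val η) (val η) ∧ ∀ x, ‖x‖ ≤ R → R < ‖ψ x‖

/-- The values of `η'` with `η` inserted at the point `q`. -/
def insertAt (w : E → E → ℝ) (η' η : E → E [⋀^Fin 2]→L[ℝ] ℝ) (q x u v : E) : ℝ :=
  val η' x u v + (val η (x - q) u v - w u v)

/-- (7) Some symplectic form `η'` standard at infinity, with `η` inserted at a point `q` such that the balls of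
`η'` and of the translate of `η` are disjoint, is symplectomorphic to `w`. -/
def Invertible (w : E → E → ℝ) (η : E → E [⋀^Fin 2]→L[ℝ] ℝ) (R : ℝ) : Prop :=
  ∃ (η' : E → E [⋀^Fin 2]→L[ℝ] ℝ) (R' : ℝ) (q : E) (φ : E ≃ E), StdAtInf w η' ∧
    Outside w η' R' ∧ R + R' < ‖q‖ ∧ Diffeo φ ∧
    PullsBack univ (fun x => φ x) (fun _ => w) (insertAt w η' η q)

/-- (8) The same with a diffeomorphism of compact support. -/
def InvertibleRel (w : E → E → ℝ) (η : E → E [⋀^Fin 2]→L[ℝ] ℝ) (R : ℝ) : Prop :=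
  ∃ (η' : E → E [⋀^Fin 2]→L[ℝ] ℝ) (R' : ℝ) (q : E) (φ : E ≃ E), StdAtInf w η' ∧
    Outside w η' R' ∧ R + R' < ‖q‖ ∧ Diffeo φ ∧
    (∃ K : Set E, IsCompact K ∧ ∀ x, x ∉ K → φ x = x) ∧
    PullsBack univ (fun x => φ x) (fun _ => w) (insertAt w η' η q)

/-- (9) A Liouville flow `Φ` of `η`, i.e. a smooth flow with `Φ_t^* η = e^t η`, contracts, as `t → -∞`, every
bounded set to a point `p`. -/
def LiouvilleContraction (η : E → E [⋀^Fin 2]→L[ℝ] ℝ) : Prop :=
  ∃ (Φ : ℝ → E → E) (p : E), ContDiff ℝ ∞ (fun z : ℝ × E => Φ z.1 z.2) ∧ (∀ x, Φ 0 x = x) ∧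
    (∀ s t x, Φ (s + t) x = Φ s (Φ t x)) ∧
    (∀ t, PullsBack univ (Φ t) (val η) (fun x u v => Real.exp t * val η x u v)) ∧
    ∀ r : ℝ, ∀ N ∈ 𝓝 p, ∃ T : ℝ, ∀ t, T ≤ t → ∀ x, ‖x‖ ≤ r → Φ (-t) x ∈ N

/-- A Liouville flow `Φ` of `η` moves the closed ball of radius `R`, as `t → -∞`, into every neighbourhood of the
compact set `K` (the skeleton). -/
structure Skeleton (η : E → E [⋀^Fin 2]→L[ℝ] ℝ) (R : ℝ) (Φ : ℝ → E → E) (K : Set E) : Prop where
  smooth : ContDiff ℝ ∞ (fun z : ℝ × E => Φ z.1 z.2)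
  zero : ∀ x, Φ 0 x = x
  add : ∀ s t x, Φ (s + t) x = Φ s (Φ t x)
  liouville : ∀ t, PullsBack univ (Φ t) (val η) (fun x u v => Real.exp t * val η x u v)
  compact : IsCompact K
  attracts : ∀ N : Set E, IsOpen N → K ⊆ N → ∃ T : ℝ, ∀ t, T ≤ t → ∀ x, ‖x‖ ≤ R → Φ (-t) x ∈ N

/-- (10) There is such a skeleton `K` with `dim_H(K × K) < dim E`. -/
def SmallSkeleton (η : E → E [⋀^Fin 2]→L[ℝ] ℝ) (R : ℝ) : Prop :=
  ∃ (Φ : ℝ → E → E) (K : Set E), Skeleton η R Φ K ∧ dimH (K ×ˢ K) < Module.finrank ℝ E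

/-- The diffeomorphism `f` satisfies `f^* η = c η`, `c > 0`, and every neighbourhood of the compact set `K`
contains the image of the closed ball of radius `R` under some iterate of `f`. -/
structure Attracts (η : E → E [⋀^Fin 2]→L[ℝ] ℝ) (R : ℝ) (f : E ≃ E) (c : ℝ) (K : Set E) : Prop where
  diffeo : Diffeo f
  pos : 0 < c
  conformal : PullsBack univ (fun x => f x) (val η) (fun x u v => c * val η x u v)
  compact : IsCompact K
  attracts : ∀ N : Set E, IsOpen N → K ⊆ N → ∃ k : ℕ, ∀ x, ‖x‖ ≤ R → (fun y => f y)^[k] x ∈ N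

/-- (11) There is such an attractor `K` with `dim_H(K × K) < dim E`. -/
def SmallAttractor (η : E → E [⋀^Fin 2]→L[ℝ] ℝ) (R : ℝ) : Prop :=
  ∃ (f : E ≃ E) (c : ℝ) (K : Set E), Attracts η R f c K ∧ dimH (K ×ˢ K) < Module.finrank ℝ E

/-- (12) There is such an attractor `K` with a neighbourhood which embeds symplectically into `(E, w)`. -/
def AttractorEmbeds (w : E → E → ℝ) (η : E → E [⋀^Fin 2]→L[ℝ] ℝ) (R : ℝ) : Prop :=
  ∃ (f : E ≃ E) (c : ℝ) (K : Set E), Attracts η R f c K ∧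
    ∃ (N : Set E) (ψ : E → E), IsOpen N ∧ K ⊆ N ∧ ContDiffOn ℝ ∞ ψ N ∧ InjOn ψ N ∧
      PullsBack N ψ (fun _ => w) (val η)

/-- (13) There is such an attractor `K` which is mapped off itself by a smooth injective map `ψ` of a
neighbourhood of `K` with `ψ^* η = η`. -/
def AttractorDisplaceable (η : E → E [⋀^Fin 2]→L[ℝ] ℝ) (R : ℝ) : Prop :=
  ∃ (f : E ≃ E) (c : ℝ) (K : Set E), Attracts η R f c K ∧
    ∃ (N : Set E) (ψ : E → E), IsOpen N ∧ K ⊆ N ∧ ContDiffOn ℝ ∞ ψ N ∧ InjOn ψ N ∧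
      PullsBack N ψ (val η) (val η) ∧ ∀ x ∈ K, ψ x ∉ K

/-- A smooth flow. -/
structure IsFlow (Φ : ℝ → E → E) : Prop where
  smooth : ContDiff ℝ ∞ (fun z : ℝ × E => Φ z.1 z.2)
  zero : ∀ x, Φ 0 x = x
  add : ∀ s t x, Φ (s + t) x = Φ s (Φ t x)

/-- The compact set `K` is a core of the Liouville flow `Φ` of `η`: it is invariant, and `Φ` moves every ball, as
`t → -∞`, into every neighbourhood of `K`. -/
structure Core (η : E → E [⋀^Fin 2]→L[ℝ] ℝ) (Φ : ℝ → E → E) (K : Set E) : Prop where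
  flow : IsFlow Φ
  liouville : ∀ t, PullsBack univ (Φ t) (val η) (fun x u v => Real.exp t * val η x u v)
  compact : IsCompact K
  invariant : ∀ t, ∀ x ∈ K, Φ t x ∈ K
  attracts : ∀ N : Set E, IsOpen N → K ⊆ N → ∀ r : ℝ, ∃ T : ℝ, ∀ t, T ≤ t → ∀ x, ‖x‖ ≤ r → Φ (-t) x ∈ N

/-- `X` is a limit, at the point `q`, of multiples `(y - x) / t`, `t → 0`, of chords of the set `K`. -/
def Chord (K : Set E) (q X : E) : Prop := ∃ (x y : ℕ → E) (t : ℕ → ℝ), (∀ j, x j ∈ K) ∧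
  (∀ j, y j ∈ K) ∧ (∀ j, 0 < t j) ∧ Tendsto t atTop (𝓝 0) ∧ Tendsto x atTop (𝓝 q) ∧
  Tendsto (fun j => (t j)⁻¹ • (y j - x j)) atTop (𝓝 X)

/-- (14) Some Liouville flow of `η` has a core `K` such that, for some smooth function `f`, the Hamiltonian vector
of `f` is at no point of `K` a limit of chords of `K`. -/
def ChordCore (η : E → E [⋀^Fin 2]→L[ℝ] ℝ) : Prop :=
  ∃ (Φ : ℝ → E → E) (K : Set E) (f : E → ℝ), Core η Φ K ∧ ContDiff ℝ ∞ f ∧
    ∀ q ∈ K, ∀ X, (∀ v, val η q X v = fderiv ℝ f q v) → ¬ Chord K q X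

/-- (15) Some Liouville flow of `η` has a core `K` which lies in the zero set of a smooth function `f`, and no
complete orbit of the Hamiltonian vector field of `f` stays in `K`. -/
def LevelCore (η : E → E [⋀^Fin 2]→L[ℝ] ℝ) : Prop :=
  ∃ (Φ : ℝ → E → E) (K : Set E) (f : E → ℝ), Core η Φ K ∧ ContDiff ℝ ∞ f ∧ (∀ q ∈ K, f q = 0) ∧
    ∀ γ : ℝ → E, Differentiable ℝ γ →
      (∀ t v, val η (γ t) (deriv γ t) v = fderiv ℝ f (γ t) v) → ∃ t, γ t ∉ K

/-- (16) Some Liouville flow of `η` has a core `K` on an embedded `ℝ^k` (embedding `ι`, smooth left inverse `r`),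
and a constant vector `u ≠ 0` is `η`-orthogonal to this submanifold along `K`. -/
def PlaneCore (η : E → E [⋀^Fin 2]→L[ℝ] ℝ) : Prop :=
  ∃ (Φ : ℝ → E → E) (K : Set E) (k : ℕ) (ι : (Fin k → ℝ) → E) (r : E → (Fin k → ℝ)) (u : Fin k → ℝ),
    Core η Φ K ∧ ContDiff ℝ ∞ ι ∧ ContDiff ℝ ∞ r ∧ (∀ z, r (ι z) = z) ∧ u ≠ 0 ∧
      ∀ q ∈ K, ∃ z, ι z = q ∧ ∀ v, val η q (fderiv ℝ ι z u) (fderiv ℝ ι z v) = 0

/-- (17) Some Liouville flow of `η` has a core `K` fixed by a smooth map `c` whose derivative at every point of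
`K` is an `η`-selfadjoint projection, not the identity. -/
def SymplecticCore (η : E → E [⋀^Fin 2]→L[ℝ] ℝ) : Prop :=
  ∃ (Φ : ℝ → E → E) (K : Set E) (c : E → E), Core η Φ K ∧ ContDiff ℝ ∞ c ∧ ∀ q ∈ K, c q = q ∧
    (∀ v, fderiv ℝ c q (fderiv ℝ c q v) = fderiv ℝ c q v) ∧ (∃ v, fderiv ℝ c q v ≠ v) ∧
    ∀ u v, val η q (fderiv ℝ c q u) v = val η q u (fderiv ℝ c q v)

/-- (18) Some Liouville flow `Φ` of `η` with a core commutes with a nontrivial circle action `T` which preserves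
`η`, and `η(∂_s Φ_s, ∂_t T_t) ≥ 0` outside a compact set. -/
def SymmetricCore (η : E → E [⋀^Fin 2]→L[ℝ] ℝ) : Prop :=
  ∃ (Φ T : ℝ → E → E) (K : Set E), Core η Φ K ∧ IsFlow T ∧ (∀ x, T (2 * Real.pi) x = x) ∧
    (∃ t x, T t x ≠ x) ∧ (∀ t, PullsBack univ (T t) (val η) (val η)) ∧
    (∀ s t x, Φ s (T t x) = T t (Φ s x)) ∧
    ∃ C : Set E, IsCompact C ∧ ∀ x, x ∉ C →
      0 ≤ val η x (deriv (fun s => Φ s x) 0) (deriv (fun t => T t x) 0)

/-- The eighteen conditions; the fourth says that every closed ball centred at `0` is displaceable by a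
Hamiltonian flow. -/
def conditions (w : E → E → ℝ) (η : E → E [⋀^Fin 2]→L[ℝ] ℝ) (R : ℝ) : List Prop :=
  [Standard w η, Embeds w η, BoundaryEmbeds w η R, ∀ r, HamDisplaceable η r, Displaceable η R,
    LocallyDisplaceable η R, Invertible w η R, InvertibleRel w η R, LiouvilleContraction η,
    SmallSkeleton η R, SmallAttractor η R, AttractorEmbeds w η R, AttractorDisplaceable η R,
    ChordCore η, LevelCore η, PlaneCore η, SymplecticCore η, SymmetricCore η]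

end general

/-- The standard symplectic form on `ℝ^(2n)`. -/
def w0 {n : ℕ} (u v : (Fin n → ℝ) × (Fin n → ℝ)) : ℝ := ∑ i : Fin n, (u.1 i * v.2 i - v.1 i * u.2 i)

section bridge

open Pool.Agent.Helper91.SY (V Form)

variable {n : ℕ} {η : Form n} {R : ℝ}

theorem std_iff : StdAtInf w0 η ↔ Pool.Agent.Helper91.SY.StdAtInf η :=
  ⟨fun h => ⟨h.smooth, h.closed, h.nondeg, h.std⟩, fun h => ⟨h.smooth, h.closed, h.nondeg, h.std⟩⟩

theorem standard_iff : Pool.Agent.Helper91.SY.Standard η ↔ Standard w0 η := by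
  constructor
  · rintro ⟨φ, h1, h2⟩
    exact ⟨φ, h1, fun x _ u v => h2 x u v⟩
  · rintro ⟨φ, h1, h2⟩
    exact ⟨φ, h1, fun x u v => h2 x (mem_univ x) u v⟩

theorem embeds_iff : Pool.Agent.Helper97.SZ.Embeds η ↔ Embeds w0 η := by
  constructor
  · rintro ⟨φ, h1, h2, h3⟩
    exact ⟨φ, h1, h2, fun x _ u v => h3 x u v⟩
  · rintro ⟨φ, h1, h2, h3⟩
    exact ⟨φ, h1, h2, fun x u v => h3 x (mem_univ x) u v⟩

theorem disp_iff : Pool.Agent.Helper97.SZ.SympDisp η R ↔ Displaceable η R := by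
  constructor
  · rintro ⟨φ, h1, h2, h3⟩
    exact ⟨φ, h1, fun x _ u v => h2 x u v, h3⟩
  · rintro ⟨φ, h1, h2, h3⟩
    exact ⟨φ, h1, fun x u v => h2 x (mem_univ x) u v, h3⟩

theorem inv_iff : Pool.Agent.Helper97.SZ.Invertible η R False ↔ Invertible w0 η R := by
  constructor
  · rintro ⟨η', R', q, φ, h1, h2, h3, h4, -, h6⟩
    exact ⟨η', R', q, φ, std_iff.2 h1, h2, h3, h4, fun x _ u v => h6 x u v⟩
  · rintro ⟨η', R', q, φ, h1, h2, h3, h4, h6⟩
    exact ⟨η', R', q, φ, std_iff.1 h1, h2, h3, h4, fun h => h.elim,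
      fun x u v => h6 x (mem_univ x) u v⟩

theorem invRel_iff : Pool.Agent.Helper97.SZ.Invertible η R True ↔ InvertibleRel w0 η R := by
  constructor
  · rintro ⟨η', R', q, φ, h1, h2, h3, h4, h5, h6⟩
    exact ⟨η', R', q, φ, std_iff.2 h1, h2, h3, h4, h5 trivial, fun x _ u v => h6 x u v⟩
  · rintro ⟨η', R', q, φ, h1, h2, h3, h4, h5, h6⟩
    exact ⟨η', R', q, φ, std_iff.1 h1, h2, h3, h4, fun _ => h5, fun x u v => h6 x (mem_univ x) u v⟩

theorem flow_iff : Pool.Agent.Helper97.SZ.PointFlow η ↔ LiouvilleContraction η := by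
  constructor
  · rintro ⟨Φ, p, h1, h2, h3, h4, h5⟩
    exact ⟨Φ, p, h1, h2, h3, fun t x _ u v => h4 t x u v, h5⟩
  · rintro ⟨Φ, p, h1, h2, h3, h4, h5⟩
    exact ⟨Φ, p, h1, h2, h3, fun t x u v => h4 t x (mem_univ x) u v, h5⟩

theorem skel_iff {Φ : ℝ → V n → V n} {K : Set (V n)} :
    Pool.Agent.Helper97.SZ.SkelFlow η R Φ K ↔ Skeleton η R Φ K :=
  ⟨fun h => ⟨h.smooth, h.zero, h.add, fun t x _ u v => h.conf t x u v, h.cpt, h.att⟩,
    fun h => ⟨h.smooth, h.zero, h.add, fun t x u v => h.liouville t x (mem_univ x) u v, h.compact,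
      h.attracts⟩⟩

theorem attr_iff {f : V n ≃ V n} {c : ℝ} {K : Set (V n)} :
    Pool.Agent.Helper97.SZ.Attr η R f c K ↔ Attracts η R f c K :=
  ⟨fun h => ⟨h.sm, h.pos, fun x _ u v => h.conf x u v, h.cpt, h.att⟩,
    fun h => ⟨h.diffeo, h.pos, fun x u v => h.conformal x (mem_univ x) u v, h.compact, h.attracts⟩⟩

theorem attrEmb_iff : Pool.Agent.Helper97.SZ.AttrEmbeds η R ↔ AttractorEmbeds w0 η R := by
  constructor
  · rintro ⟨f, c, K, h, h'⟩
    exact ⟨f, c, K, attr_iff.1 h, h'⟩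
  · rintro ⟨f, c, K, h, h'⟩
    exact ⟨f, c, K, attr_iff.2 h, h'⟩

theorem attrDisp_iff : Pool.Agent.Helper97.SZ.AttrDisp η R ↔ AttractorDisplaceable η R := by
  constructor
  · rintro ⟨f, c, K, h, h'⟩
    exact ⟨f, c, K, attr_iff.1 h, h'⟩
  · rintro ⟨f, c, K, h, h'⟩
    exact ⟨f, c, K, attr_iff.2 h, h'⟩

theorem finrank_V : Module.finrank ℝ (V n) = n + n := by
  rw [Module.finrank_prod, Module.finrank_fin_fun]

theorem small_of (h : SmallAttractor η R) : Pool.Agent.Helper97.SZ.SmallAttr η R := by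
  obtain ⟨f, c, K, h1, h2⟩ := h
  refine ⟨f, c, K, attr_iff.2 h1, ?_⟩
  rw [finrank_V] at h2
  have h3 : dimH (K ×ˢ K) < ((n + n : ℕ) : NNReal) := by exact_mod_cast h2
  have h4 := hausdorffMeasure_of_dimH_lt h3
  have h5 : (((n + n : ℕ) : NNReal) : ℝ) = 2 * n := by
    push_cast
    ring
  rwa [h5] at h4

theorem small_skel (h : SmallSkeleton η R) : SmallAttractor η R := by
  obtain ⟨Φ, K, h1, h2⟩ := h
  obtain ⟨f, c, hA⟩ := Pool.Agent.Helper97.SZ.skelFlow_attr (skel_iff.2 h1)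
  exact ⟨f, c, K, attr_iff.1 hA, h2⟩

theorem small_point (hn : 2 ≤ n) (h : LiouvilleContraction η) : SmallSkeleton η R := by
  obtain ⟨Φ, p, hA⟩ := Pool.Agent.Helper97.SZ.pointFlow_skel (flow_iff.2 h) R
  refine ⟨Φ, {p}, skel_iff.1 hA, ?_⟩
  rw [singleton_prod_singleton, dimH_singleton, finrank_V]
  exact_mod_cast (by omega : 0 < n + n)

theorem fl_iff {Φ : ℝ → V n → V n} : Pool.Agent.Helper37.CA.Fl Φ ↔ IsFlow Φ :=
  ⟨fun h => ⟨h.smooth, h.zero, h.add⟩, fun h => ⟨h.smooth, h.zero, h.add⟩⟩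

theorem core_iff {Φ : ℝ → V n → V n} {K : Set (V n)} :
    Pool.Agent.Helper37.CA.CoreFlow η Φ K ↔ Core η Φ K :=
  ⟨fun h => ⟨fl_iff.1 h.flow, fun t x _ u v => h.conf t x u v, h.cpt, h.inv, h.att⟩,
    fun h => ⟨fl_iff.2 h.flow, fun t x u v => h.liouville t x (mem_univ x) u v, h.compact,
      h.invariant, h.attracts⟩⟩

theorem chord_iff : Pool.Agent.Helper37.CA.InfCore η ↔ ChordCore η := by
  constructor
  · rintro ⟨Φ, K, f, h, h'⟩
    exact ⟨Φ, K, f, core_iff.1 h, h'⟩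
  · rintro ⟨Φ, K, f, h, h'⟩
    exact ⟨Φ, K, f, core_iff.2 h, h'⟩

theorem level_iff : Pool.Agent.Helper37.CA.LevelCore η ↔ LevelCore η := by
  constructor
  · rintro ⟨Φ, K, f, h, h'⟩
    exact ⟨Φ, K, f, core_iff.1 h, h'⟩
  · rintro ⟨Φ, K, f, h, h'⟩
    exact ⟨Φ, K, f, core_iff.2 h, h'⟩

theorem plane_iff : Pool.Agent.Helper37.CA.PlaneCore η ↔ PlaneCore η := by
  constructor
  · rintro ⟨Φ, K, k, ι, r, u, h, h'⟩
    exact ⟨Φ, K, k, ι, r, u, core_iff.1 h, h'⟩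
  · rintro ⟨Φ, K, k, ι, r, u, h, h'⟩
    exact ⟨Φ, K, k, ι, r, u, core_iff.2 h, h'⟩

theorem symplectic_iff : Pool.Agent.Helper37.CA.SympCore η ↔ SymplecticCore η := by
  constructor
  · rintro ⟨Φ, K, c, h, h'⟩
    exact ⟨Φ, K, c, core_iff.1 h, h'⟩
  · rintro ⟨Φ, K, c, h, h'⟩
    exact ⟨Φ, K, c, core_iff.2 h, h'⟩

theorem symmetric_iff : Pool.Agent.Helper37.CA.SymCore η ↔ SymmetricCore η := by
  constructor
  · rintro ⟨Φ, T, K, h1, h2, h3, h4, h5, h6⟩
    exact ⟨Φ, T, K, core_iff.1 h1, fl_iff.1 h2, h3, h4, fun t x _ u v => h5 t x u v, h6⟩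
  · rintro ⟨Φ, T, K, h1, h2, h3, h4, h5, h6⟩
    exact ⟨Φ, T, K, core_iff.2 h1, fl_iff.2 h2, h3, h4, fun t x u v => h5 t x (mem_univ x) u v, h6⟩

end bridge

/-- Let `n ≥ 2` and let `η` be a symplectic form on `ℝ^(2n)` (with the maximum norm), equal to the standard form
outside the closed cube of half side `R > 0`.  Then the eighteen conditions are equivalent. -/
theorem result (n : ℕ) (hn : 2 ≤ n)
    (η : (Fin n → ℝ) × (Fin n → ℝ) → ((Fin n → ℝ) × (Fin n → ℝ)) [⋀^Fin 2]→L[ℝ] ℝ) (R : ℝ)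
    (hR : 0 < R) (hη : StdAtInf w0 η) (hout : Outside w0 η R) : (conditions w0 η R).TFAE := by
  have hF := Pool.Agent.Helper97.SZ.fin' n hn η R hR (std_iff.1 hη) hout
  have hD := Pool.Agent.Helper97.SZ.disp' n hn η R hR (std_iff.1 hη) hout
  have hA := Pool.Agent.Helper97.SZ.att' n hn η R hR (std_iff.1 hη) hout
  have hC := Pool.Agent.Helper37.CA.thmA hn (std_iff.1 hη)
  show [Standard w0 η, Embeds w0 η, BoundaryEmbeds w0 η R, ∀ r, HamDisplaceable η r,
    Displaceable η R, LocallyDisplaceable η R, Invertible w0 η R, InvertibleRel w0 η R,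
    LiouvilleContraction η, SmallSkeleton η R, SmallAttractor η R, AttractorEmbeds w0 η R,
    AttractorDisplaceable η R, ChordCore η, LevelCore η, PlaneCore η, SymplecticCore η,
    SymmetricCore η].TFAE
  tfae_have 1 ↔ 2 := standard_iff.symm.trans ((hF.out 0 1).trans embeds_iff)
  tfae_have 1 ↔ 3 := standard_iff.symm.trans ((hF.out 0 2).trans
    (Pool.Agent.Helper97.SZ.sphereEmbeds_iff (by omega) (std_iff.1 hη) hR).symm)
  tfae_have 1 → 4 := fun h r => Pool.Agent.Helper97.SZ.standard_hamDisp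
    Pool.Agent.Helper97.SZ.to' Pool.Agent.Helper97.SZ.cw' hn (std_iff.1 hη) (standard_iff.2 h) r
  tfae_have 4 → 5 := fun h => disp_iff.1 ((hD.out 1 2).1 (h R))
  tfae_have 1 ↔ 5 := standard_iff.symm.trans ((hD.out 0 2).trans disp_iff)
  tfae_have 1 ↔ 6 := standard_iff.symm.trans ((hD.out 0 3).trans
    (Pool.Agent.Helper97.SZ.sphereDisp_iff (by omega) (std_iff.1 hη) hR).symm)
  tfae_have 1 ↔ 7 := standard_iff.symm.trans ((hF.out 0 4).trans inv_iff)
  tfae_have 1 ↔ 8 := standard_iff.symm.trans ((hF.out 0 3).trans invRel_iff)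
  tfae_have 1 ↔ 9 := standard_iff.symm.trans ((hA.out 0 1).trans flow_iff)
  tfae_have 9 → 10 := small_point hn
  tfae_have 10 → 11 := small_skel
  tfae_have 11 → 1 := fun h => standard_iff.1 ((hA.out 2 0).1 (small_of h))
  tfae_have 1 ↔ 12 := standard_iff.symm.trans ((hA.out 0 3).trans attrEmb_iff)
  tfae_have 1 ↔ 13 := standard_iff.symm.trans ((hA.out 0 4).trans attrDisp_iff)
  tfae_have 1 ↔ 14 := standard_iff.symm.trans ((hC.out 0 1).trans chord_iff)
  tfae_have 1 ↔ 15 := standard_iff.symm.trans ((hC.out 0 2).trans level_iff)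
  tfae_have 1 ↔ 16 := standard_iff.symm.trans ((hC.out 0 3).trans plane_iff)
  tfae_have 1 ↔ 17 := standard_iff.symm.trans ((hC.out 0 4).trans symplectic_iff)
  tfae_have 1 ↔ 18 := standard_iff.symm.trans ((hC.out 0 5).trans symmetric_iff)
  tfae_finish

end Pool.Agent.Results.MP_126465_gt.EmbeddingCriterion
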