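import Pool.Agent.Helper91.SY.Main
import Pool.Agent.Helper91.SY.Defs

/-!
# Symplectic forms standard at infinity: no bounded orbit implies standard
-/

set_option autoImplicit false

namespace Pool.Agent.Results.MP_126465_gt.NonTrapping

open Pool.Agent.Helper91.SYD

/-- For a symplectic form `η` on `ℝ^(2n)` which is standard at infinity each of the following conditions
implies the next one.  (1) There are smooth `f, g`, equal to linear functions `l, m` (`l ≠ 0`) outside a
compact set, whose Poisson bracket is positive everywhere.  (2) There is a smooth `f`, equal to a nonzero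
linear function outside a compact set, whose Hamiltonian field has no bounded complete orbit.  (3) There
is a symplectic diffeomorphism, equal to a nontrivial translation outside a compact set, without bounded
orbit.  (4) `(ℝ^(2n), η)` is symplectomorphic to the standard space. -/
theorem result (n : ℕ) (η : V n → V n [⋀^Fin 2]→L[ℝ] ℝ) (hη : StandardAtInfinity w0 η) :
    (PositiveBracket η → NontrappingFlow η) ∧ (NontrappingFlow η → NontrappingMap η) ∧
      (NontrappingMap η → Standard w0 η) := by
  obtain ⟨h1, h2, h3⟩ := Pool.Agent.Helper91.SY.headB n η ⟨hη.1.1, hη.1.2, hη.1.3, hη.2⟩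
  refine ⟨?_, ?_, ?_⟩
  · rintro ⟨l, m, hl, f, g, hf, hg, h4, h5, h6⟩
    obtain ⟨l', f', h7, h8, h9, h10⟩ := h1 ⟨l, m, f, g, hf, hg, h4, h5, hl, h6⟩
    exact ⟨f', l', h7, h8, h9, h10⟩
  · rintro ⟨f, l, hl, hf, h4, h5⟩
    obtain ⟨a, g, h6, h7, h8, h9, h10⟩ := h2 ⟨l, f, hl, hf, h4, h5⟩
    exact ⟨g, a, h6, h7, h8, h9, h10⟩
  · rintro ⟨g, a, ha, h5, h6, h4, h7⟩
    exact h3 ⟨a, g, ha, h5, h6, h4, h7⟩

end Pool.Agent.Results.MP_126465_gt.NonTrapping
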